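import Pool.Agent.HAR.Stmts

/-!
# Squad HAR, row CNT (helper32): random graphs with constraints
-/

namespace Pool.Agent.HAR.H32

open Finset Filter Topology

open Classical in
/-- the graph which agrees with `G` outside of `P` and with `s` on `P` -/
noncomputable def mix {n : ℕ} (P : Finset (Sym2 (Fin n))) (G : SimpleGraph (Fin n))
    (s : P → Bool) : SimpleGraph (Fin n) :=
  SimpleGraph.fromEdgeSet {e | if h : e ∈ P then s ⟨e, h⟩ = true else e ∈ G.edgeSet}

theorem mem_mix_of_mem {n : ℕ} (P : Finset (Sym2 (Fin n))) (hP : ∀ e ∈ P, ¬ e.IsDiag)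
    (G : SimpleGraph (Fin n)) (s : P → Bool) (e : Sym2 (Fin n)) (he : e ∈ P) :
    e ∈ (mix P G s).edgeSet ↔ s ⟨e, he⟩ = true := by
  classical
  unfold mix
  rw [SimpleGraph.edgeSet_fromEdgeSet]
  simp only [Set.mem_sdiff, Set.mem_ofPred_eq, dif_pos he]
  constructor
  · exact fun h => h.1
  · exact fun h => ⟨h, fun h' => hP e he h'⟩

theorem mem_mix_of_notMem {n : ℕ} (P : Finset (Sym2 (Fin n)))
    (G : SimpleGraph (Fin n)) (s : P → Bool) (e : Sym2 (Fin n)) (he : e ∉ P) :
    e ∈ (mix P G s).edgeSet ↔ e ∈ G.edgeSet := by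
  classical
  unfold mix
  rw [SimpleGraph.edgeSet_fromEdgeSet]
  simp only [Set.mem_sdiff, Set.mem_ofPred_eq, dif_neg he]
  constructor
  · exact fun h => h.1
  · exact fun h => ⟨h, fun h' => G.not_isDiag_of_mem_edgeSet h h'⟩

/-- CNT -/
theorem cnt : CntStmt := by
  intro n P f hP hf
  classical
  let E : SimpleGraph (Fin n) → Prop :=
    fun G => ∀ e ∈ P, (e ∈ G.edgeSet ↔ f e ∈ G.edgeSet)
  have hinj : Function.Injective fun x : {G : SimpleGraph (Fin n) // E G} × (P → Bool) =>
      mix P x.1.1 x.2 := by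
    rintro ⟨⟨G, hG⟩, s⟩ ⟨⟨G', hG'⟩, s'⟩ h
    simp only at h
    have hs : s = s' := by
      funext ⟨e, he⟩
      have h1 := mem_mix_of_mem P hP G s e he
      have h2 := mem_mix_of_mem P hP G' s' e he
      rw [h] at h1
      rw [Bool.eq_iff_iff]
      exact h1.symm.trans h2
    have hout : ∀ e, e ∉ P → (e ∈ G.edgeSet ↔ e ∈ G'.edgeSet) := by
      intro e he
      have h1 := mem_mix_of_notMem P G s e he
      have h2 := mem_mix_of_notMem P G' s' e he
      rw [h] at h1
      exact h1.symm.trans h2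
    have hGG' : G = G' := by
      rw [← SimpleGraph.edgeSet_inj]
      ext e
      by_cases he : e ∈ P
      · rw [hG e he, hG' e he]
        exact hout _ (hf e he)
      · exact hout e he
    subst hGG'
    subst hs
    rfl
  have hcard := Nat.card_le_card_of_injective _ hinj
  rw [Nat.card_prod] at hcard
  have h2 : Nat.card (P → Bool) = 2 ^ P.card := by
    simp [Nat.card_eq_fintype_card]
  rw [h2] at hcard
  have hpos : 0 < Nat.card (SimpleGraph (Fin n)) := Nat.card_pos
  show (Nat.card {G : SimpleGraph (Fin n) // E G} : ℝ) / Nat.card (SimpleGraph (Fin n)) ≤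
    (1 / 2) ^ P.card
  rw [div_le_iff₀ (by exact_mod_cast hpos)]
  have h3 : (Nat.card {G : SimpleGraph (Fin n) // E G} : ℝ) * 2 ^ P.card ≤
      Nat.card (SimpleGraph (Fin n)) := by exact_mod_cast hcard
  have h4 : (1 / 2 : ℝ) ^ P.card * 2 ^ P.card = 1 := by
    rw [← mul_pow]
    norm_num
  calc (Nat.card {G : SimpleGraph (Fin n) // E G} : ℝ)
      = (1 / 2) ^ P.card * ((Nat.card {G : SimpleGraph (Fin n) // E G} : ℝ) * 2 ^ P.card) := by
        rw [mul_comm ((Nat.card {G : SimpleGraph (Fin n) // E G} : ℝ)), ← mul_assoc, h4, one_mul]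
    _ ≤ (1 / 2) ^ P.card * Nat.card (SimpleGraph (Fin n)) :=
        mul_le_mul_of_nonneg_left h3 (by positivity)

end Pool.Agent.HAR.H32
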