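import Pool.Agent.HAR.Stmts

/-!
# Squad HAR, row THD (helper32): a third of the moved points
-/

namespace Pool.Agent.HAR.H32

open Finset Filter Topology

/-- THD -/
theorem thd : ThdStmt := by
  intro V _ D φ hinj hne
  -- a maximal subset
  obtain ⟨D', hD', hmax⟩ := Finset.exists_max_image
    (D.powerset.filter fun S => ∀ x ∈ S, φ x ∉ S) (fun S => S.card)
    ⟨∅, by simp⟩
  rw [Finset.mem_filter, Finset.mem_powerset] at hD'
  obtain ⟨hsub, hD'⟩ := hD'
  refine ⟨D', hsub, ?_, hD'⟩
  have hcov : D \ D' ⊆ D'.image φ ∪ D.filter fun y => φ y ∈ D' := by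
    intro y hy
    rw [Finset.mem_sdiff] at hy
    by_contra hcon
    simp only [Finset.mem_union, Finset.mem_image, Finset.mem_filter, not_or, not_exists,
      not_and] at hcon
    obtain ⟨h1, h2⟩ := hcon
    have h2' : φ y ∉ D' := h2 hy.1
    have hins : insert y D' ∈ D.powerset.filter fun S => ∀ x ∈ S, φ x ∉ S := by
      rw [Finset.mem_filter, Finset.mem_powerset]
      refine ⟨Finset.insert_subset hy.1 hsub, ?_⟩
      intro x hx
      rw [Finset.mem_insert] at hx
      rw [Finset.mem_insert, not_or]
      rcases hx with hx | hx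
      · subst hx
        exact ⟨hne x hy.1, h2'⟩
      · exact ⟨h1 x hx, hD' x hx⟩
    have h3 := hmax _ hins
    rw [Finset.card_insert_of_notMem hy.2] at h3
    omega
  have hc1 : (D'.image φ).card ≤ D'.card := Finset.card_image_le
  have hc2 : (D.filter fun y => φ y ∈ D').card ≤ D'.card := by
    refine Finset.card_le_card_of_injOn φ ?_ ?_
    · intro y hy
      exact (Finset.mem_filter.1 hy).2
    · intro x hx y hy hxy
      exact hinj (Finset.mem_filter.1 hx).1 (Finset.mem_filter.1 hy).1 hxy
  have hc3 := Finset.card_le_card hcov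
  have hc4 := Finset.card_union_le (D'.image φ) (D.filter fun y => φ y ∈ D')
  have hc5 : (D \ D').card = D.card - D'.card := Finset.card_sdiff_of_subset hsub
  have hc6 := Finset.card_le_card hsub
  omega

end Pool.Agent.HAR.H32
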